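import Mathlib
import Pool.Agent.Q239.ABC.Extra

/-!
# The abc conjecture is equivalent to its restriction to triples of almost-powers

Let `(p, q, r)` be one of the three signatures `(3,3,3)`, `(2,4,4)`, `(2,3,6)` with
`1/p + 1/q + 1/r = 1`, and let `δ > 0` be arbitrarily small. The abc conjecture is equivalent to the
abc conjecture for those triples whose terms are, in some order, `u x ^ p`, `v y ^ q`, `w z ^ r` with
`u, v, w ≤ c ^ δ`.

These exponents are extreme: if `1/p + 1/q + 1/r + 3 δ < 1` then the abc conjecture implies that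
there are only finitely many such triples (`Pool.Agent.Q239.ABC.finite_of_abc`).

Proof. The plane `x₀ + x₁ + x₂ = 0` has self-maps which are unramified outside of `x₀ x₁ x₂ = 0` and
map this set to itself, and which preserve the shape `(u₀ x ^ p, u₁ y ^ q, u₂ z ^ r)` with
coefficients that stay fixed (up to bounded factors), while the height `H` becomes `H ^ d`. For
`(3,3,3)` this is `(x₀ (x₁ - x₂)³, x₁ (x₂ - x₀)³, x₂ (x₀ - x₁)³)`, and there are similar maps of
degree `2` and `3` in the other cases (quotients of endomorphisms of elliptic curves with complex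
multiplication). By the Riemann-Hurwitz formula the radical grows by the factor `H ^ (d - 1)` at
most, so that nothing is lost in the exponent `1 + ε`; the common factors that arise are bounded.
-/

namespace Pool.Agent.Results.MP_7aad9f_nt.AlmostPowers

/-- the radical `R(m)`: the product of the distinct primes dividing `m` -/
def R (m : ℕ) : ℕ := ∏ p ∈ m.primeFactors, p

/-- the abc inequality for all `ε`, for the triples of coprime positive integers `a + b = c` in the
class `P` -/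
def ABCFor (P : ℕ → ℕ → ℕ → Prop) : Prop :=
  ∀ ε : ℝ, 0 < ε → ∃ κ : ℝ, ∀ a b c : ℕ, 0 < a → 0 < b → Nat.Coprime a b → a + b = c →
    P a b c → (c : ℝ) ≤ κ * (R (a * b * c) : ℝ) ^ (1 + ε)

/-- the abc conjecture -/
def ABC : Prop :=
  ∀ ε : ℝ, 0 < ε → ∃ κ : ℝ, ∀ a b c : ℕ, 0 < a → 0 < b → Nat.Coprime a b → a + b = c →
    (c : ℝ) ≤ κ * (R (a * b * c) : ℝ) ^ (1 + ε)

/-- In some order, the terms are `u x ^ p`, `v y ^ q`, `w z ^ r` with `u, v, w ≤ c ^ δ`. -/
def AlmostPower (p q r : ℕ) (δ : ℝ) (a b c : ℕ) : Prop :=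
  ∃ u v w x y z : ℕ, [a, b, c].Perm [u * x ^ p, v * y ^ q, w * z ^ r] ∧
    (u : ℝ) ≤ (c : ℝ) ^ δ ∧ (v : ℝ) ≤ (c : ℝ) ^ δ ∧ (w : ℝ) ≤ (c : ℝ) ^ δ

theorem abc_iff : ABC ↔ Pool.Agent.Q239.ABC.ABCFor (fun _ _ _ => True) :=
  ⟨fun h ε hε => by
    obtain ⟨κ, hκ⟩ := h ε hε
    exact ⟨κ, fun a b c ha hb hab hc _ => hκ a b c ha hb hab hc⟩,
   fun h ε hε => by
    obtain ⟨κ, hκ⟩ := h ε hε
    exact ⟨κ, fun a b c ha hb hab hc => hκ a b c ha hb hab hc trivial⟩⟩

/-- The abc conjecture is equivalent to its restriction to triples of almost-powers with the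
exponents `(3,3,3)`, `(2,4,4)` or `(2,3,6)`, the coefficients being at most `c ^ δ`, for every
`δ > 0`. -/
theorem result (p q r : ℕ) (hs : (p, q, r) = (3, 3, 3) ∨ (p, q, r) = (2, 4, 4) ∨
    (p, q, r) = (2, 3, 6)) (δ : ℝ) (hδ : 0 < δ) : ABCFor (AlmostPower p q r δ) ↔ ABC := by
  refine ⟨fun h => ?_, fun h => Pool.Agent.Q239.ABC.of_all (abc_iff.mp h)⟩
  rcases hs with hs | hs | hs <;> simp only [Prod.mk.injEq] at hs <;>
    obtain ⟨rfl, rfl, rfl⟩ := hs
  · exact abc_iff.mpr (Pool.Agent.Q239.ABC.three δ hδ h)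
  · exact abc_iff.mpr (Pool.Agent.Q239.ABC.four δ hδ h)
  · exact abc_iff.mpr (Pool.Agent.Q239.ABC.six δ hδ h)

end Pool.Agent.Results.MP_7aad9f_nt.AlmostPowers
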