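import Mathlib
import Pool.Agent.Q239.ABC.Sphere

/-!
# The abc conjecture is equivalent to its restriction to certain triples of perfect powers

The abc conjecture holds if (and only if) it holds for the triples `a + b = c` which consist of two
perfect cubes and a perfect square. The same is true for the triples which consist of two squares
and a `k`-th power, and for the triples which contain two `k`-th powers, for every fixed `k ≥ 1`.
So the exponents are `(2,3,3)`, `(2,2,k)` and `(1,k,k)`.

Proof. For `(2,3,3)`: let `x = u (u³ + 8 v³)`, `y = 4 v (v³ - u³)`, `z = u⁶ - 20 u³ v³ - 8 v⁶`. Then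
`x³ + y³ = z²`, and `x³`, `y³`, `z²` is a map of degree `12` which is unramified outside of three
points and which maps the three points `u v (u - v) = 0` to these; two of the three members of a
given triple can be chosen as `u`, `v` (up to signs) in such a way that `u` is odd and `u - v` prime
to `3`, and then `x` and `y` are coprime. By the Riemann-Hurwitz formula the radical is multiplied by
at most a constant times `c ^ 11` while `c` becomes `c ^ 12`, so nothing is lost in the exponent
`1 + ε`. For `(2,2,k)`: `((u ^ k - v ^ k) / 2) ^ 2 + (u v) ^ k = ((u ^ k + v ^ k) / 2) ^ 2` for the two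
odd members `u`, `v` of the triple. For `(1,k,k)`: `a ^ k + (c ^ k - a ^ k) = c ^ k`.
-/

namespace Pool.Agent.Results.MP_7aad9f_nt.PerfectPowers

/-- the radical `R(m)`: the product of the distinct primes dividing `m` -/
def R (m : ℕ) : ℕ := ∏ p ∈ m.primeFactors, p

/-- the abc inequality for all `ε`, for the triples of coprime positive integers `a + b = c` in the
class `P` -/
def ABCFor (P : ℕ → ℕ → ℕ → Prop) : Prop :=
  ∀ ε : ℝ, 0 < ε → ∃ κ : ℝ, ∀ a b c : ℕ, 0 < a → 0 < b → Nat.Coprime a b → a + b = c →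
    P a b c → (c : ℝ) ≤ κ * (R (a * b * c) : ℝ) ^ (1 + ε)

/-- the abc conjecture -/
def ABC : Prop :=
  ∀ ε : ℝ, 0 < ε → ∃ κ : ℝ, ∀ a b c : ℕ, 0 < a → 0 < b → Nat.Coprime a b → a + b = c →
    (c : ℝ) ≤ κ * (R (a * b * c) : ℝ) ^ (1 + ε)

/-- In some order, the terms are perfect powers with the exponents `p`, `q`, `r`. -/
def Powers (p q r : ℕ) (a b c : ℕ) : Prop :=
  ∃ x y z : ℕ, [a, b, c].Perm [x ^ p, y ^ q, z ^ r]

theorem abc_iff : ABC ↔ Pool.Agent.Q239.ABC.ABCFor (fun _ _ _ => True) :=
  ⟨fun h ε hε => by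
    obtain ⟨κ, hκ⟩ := h ε hε
    exact ⟨κ, fun a b c ha hb hab hc _ => hκ a b c ha hb hab hc⟩,
   fun h ε hε => by
    obtain ⟨κ, hκ⟩ := h ε hε
    exact ⟨κ, fun a b c ha hb hab hc => hκ a b c ha hb hab hc trivial⟩⟩

/-- The abc conjecture is equivalent to its restriction to the triples which consist of a square and
two cubes, to the triples which consist of two squares and a `k`-th power, and to the triples with
two `k`-th powers, for every `k ≥ 1`. -/
theorem result (p q r : ℕ) (hs : (p, q, r) = (2, 3, 3) ∨ (∃ k : ℕ, 1 ≤ k ∧ (p, q, r) = (2, 2, k)) ∨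
    ∃ k : ℕ, 1 ≤ k ∧ (p, q, r) = (1, k, k)) : ABCFor (Powers p q r) ↔ ABC := by
  refine ⟨fun h => ?_, fun h => Pool.Agent.Q239.ABC.of_all (abc_iff.mp h)⟩
  rcases hs with hs | ⟨k, hk, hs⟩ | ⟨k, hk, hs⟩ <;> simp only [Prod.mk.injEq] at hs <;>
    obtain ⟨rfl, rfl, rfl⟩ := hs
  · exact abc_iff.mpr (Pool.Agent.Q239.ABC.two_three_three h)
  · exact abc_iff.mpr (Pool.Agent.Q239.ABC.two_two_k _ hk h)
  · exact abc_iff.mpr (Pool.Agent.Q239.ABC.one_k_k _ hk h)

end Pool.Agent.Results.MP_7aad9f_nt.PerfectPowers
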