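import Mathlib
import Pool.Agent.H755R4.SU3

/-!
`S`-unit multiples of powers in abc-triples, in short intervals.

Let `S` be a finite set of primes. For almost all integers `B` of any interval `(b, b + Y]` with
`b ≤ Y ^ K`, every abc-triple (of any height) one of whose three terms is `β * B ^ y`, with `y ≥ 1`
and a positive integer `β` all of whose prime factors are in `S`, satisfies
`R (abc) > R (β B) * Y ^ (1 - ε)`.
-/

namespace Pool.Agent.Results.MP_7aad9f_nt.SUnitMultiplesShort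

/-- the radical: the product of the distinct primes dividing `m` -/
def R (m : ℕ) : ℕ := ∏ p ∈ m.primeFactors, p

/-- `(u, v, w)` is an abc-triple: coprime positive integers with `u + v = w` -/
def Triple (u v w : ℕ) : Prop := 0 < u ∧ 0 < v ∧ Nat.Coprime u v ∧ u + v = w

/-- `β` is a positive integer all of whose prime factors are in `S` -/
def Unit (S : Finset ℕ) (β : ℕ) : Prop := 0 < β ∧ ∀ p : ℕ, p.Prime → p ∣ β → p ∈ S

/-- the integers `B` of the interval `(b, b + Y]` for which there is an abc-triple `(u, v, w)` of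
any height with a term `β * B ^ y`, `y ≥ 1`, where `β` is composed of primes of `S`, and with
`R (u v w) ≤ R (β B) * Y ^ (1 - ε)` -/
def Bad (S : Finset ℕ) (ε : ℝ) (b Y : ℕ) : Set ℕ :=
  {B | b < B ∧ B ≤ b + Y ∧ ∃ y β u v w : ℕ, 0 < y ∧ Unit S β ∧ Triple u v w ∧
    (u = β * B ^ y ∨ v = β * B ^ y ∨ w = β * B ^ y) ∧
    (R (u * v * w) : ℝ) ≤ R (β * B) * (Y : ℝ) ^ (1 - ε)}

theorem R_pos (m : ℕ) : 0 < R m := Finset.prod_pos fun _ hp => (Nat.prime_of_mem_primeFactors hp).pos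

theorem R_mul {m n : ℕ} (h : Nat.Coprime m n) : R (m * n) = R m * R n := by
  unfold R
  rw [h.primeFactors_mul, Finset.prod_union h.disjoint_primeFactors]

theorem R_pow {m β y : ℕ} (hβ : 0 < β) (hm : 0 < m) (hy : 0 < y) : R (β * m ^ y) = R (β * m) := by
  unfold R
  rw [Nat.primeFactors_mul hβ.ne' (pow_pos hm y).ne', Nat.primeFactors_mul hβ.ne' hm.ne',
    Nat.primeFactors_pow _ hy.ne']

theorem key {ε : ℝ} {B β y s t Y : ℕ} (hβ : 0 < β) (hB : 0 < B) (hy : 0 < y)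
    (h : Nat.Coprime (s * t) (β * B ^ y))
    (hR : (R (s * t * (β * B ^ y)) : ℝ) ≤ R (β * B) * (Y : ℝ) ^ (1 - ε)) :
    (R (s * t) : ℝ) ≤ (Y : ℝ) ^ (1 - ε) := by
  rw [R_mul h, R_pow hβ hB hy] at hR
  push_cast at hR
  have h0 : (0 : ℝ) < R (β * B) := by exact_mod_cast R_pos (β * B)
  rw [mul_comm] at hR
  exact le_of_mul_le_mul_left hR h0

theorem bad_sub (S : Finset ℕ) (ε : ℝ) (b Y : ℕ) :
    Bad S ε b Y ⊆ Pool.Agent.H755R4.SU.PSS S b Y ε := by
  rintro B ⟨hb, hB, y, β, u, v, w, hy, hβ, ⟨hu, hv, huv, huvw⟩, hpow, hR⟩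
  have hB0 : 0 < B := by omega
  have huw : Nat.Coprime u w := by rw [← huvw]; simpa using huv
  have hvw : Nat.Coprime v w := by rw [← huvw]; simpa using huv.symm
  rcases hpow with h | h | h
  · refine ⟨hb, hB, y, β, v, w, hy, hβ, hv, by omega, hvw,
      Or.inr (by rw [← h, ← huvw, add_comm]), ?_⟩
    refine key (B := B) hβ.1 hB0 hy ?_ ?_
    · rw [← h]; exact Nat.Coprime.mul_left huv.symm huw.symm
    · rw [← h]
      rwa [show v * w * u = u * v * w by ring]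
  · refine ⟨hb, hB, y, β, u, w, hy, hβ, hu, by omega, huw, Or.inr (by rw [← h, ← huvw]), ?_⟩
    refine key (B := B) hβ.1 hB0 hy ?_ ?_
    · rw [← h]; exact Nat.Coprime.mul_left huv hvw.symm
    · rw [← h]
      rwa [show u * w * v = u * v * w by ring]
  · refine ⟨hb, hB, y, β, u, v, hy, hβ, hu, hv, huv, Or.inl (by rw [← h, ← huvw]), ?_⟩
    refine key (B := B) hβ.1 hB0 hy ?_ ?_
    · rw [← h]; exact Nat.Coprime.mul_left huw hvw
    · rwa [← h]

/-- Let a finite set `S` of primes, `K` and `ε > 0` be given. For `Y` large, every interval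
`(b, b + Y]` with `b ≤ Y ^ K` contains at most `ε Y` integers `B` for which some abc-triple (of any
height) has a term `β * B ^ y` with `y ≥ 1` and `β` composed of primes of `S`, and radical
`R (abc) ≤ R (β B) * Y ^ (1 - ε)`. -/
theorem result (S : Finset ℕ) (hS : ∀ p ∈ S, p.Prime) (K : ℕ) (ε : ℝ) (hε : 0 < ε) :
    ∃ L : ℕ, ∀ Y b : ℕ, L ≤ Y → b ≤ Y ^ K →
    (Bad S ε b Y).Finite ∧ ((Bad S ε b Y).ncard : ℝ) ≤ ε * Y := by
  have hfin : ∀ b Y : ℕ, ({B : ℕ | b < B ∧ B ≤ b + Y} : Set ℕ).Finite := fun b Y =>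
    (Set.finite_Ioc b (b + Y)).subset (fun B hB => hB)
  have hcard : ∀ b Y : ℕ, ({B : ℕ | b < B ∧ B ≤ b + Y} : Set ℕ).ncard ≤ Y := by
    intro b Y
    have h1 : ({B : ℕ | b < B ∧ B ≤ b + Y} : Set ℕ) = (Finset.Ioc b (b + Y) : Finset ℕ) := by
      ext B; simp
    rw [h1, Set.ncard_coe_finset, Nat.card_Ioc]
    omega
  have hsubI : ∀ (b Y : ℕ), Bad S ε b Y ⊆ {B : ℕ | b < B ∧ B ≤ b + Y} :=
    fun b Y B hB => ⟨hB.1, hB.2.1⟩
  rcases lt_or_ge ε 1 with hε1 | hε1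
  · obtain ⟨L, hL⟩ := Pool.Agent.H755R4.SU.powersS S hS (K + 2) (by omega) hε hε1
    refine ⟨max L 2, fun Y b hY hb => ⟨(hfin b Y).subset (hsubI b Y), ?_⟩⟩
    have hLY : L ≤ Y := (le_max_left _ _).trans hY
    have hY2 : 2 ≤ Y := (le_max_right _ _).trans hY
    have hNK : Y ^ K + Y ≤ Y ^ (K + 2) := by
      have h1 : Y ^ K ≤ Y ^ (K + 1) := Nat.pow_le_pow_right (by omega) (by omega)
      have h2 : Y ≤ Y ^ (K + 1) := Nat.le_self_pow (by omega) Y
      have h3 : Y ^ (K + 2) = Y ^ (K + 1) * Y := pow_succ _ _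
      calc Y ^ K + Y ≤ Y ^ (K + 1) * 2 := by omega
        _ ≤ Y ^ (K + 1) * Y := Nat.mul_le_mul_left _ hY2
        _ = _ := h3.symm
    refine le_trans ?_ (hL Y b hLY (by omega))
    have hPSfin : (Pool.Agent.H755R4.SU.PSS S b Y ε).Finite :=
      (hfin b Y).subset (fun B hB => ⟨hB.1, hB.2.1⟩)
    exact_mod_cast Set.ncard_le_ncard (bad_sub S ε b Y) hPSfin
  · refine ⟨0, fun Y b _ _ => ⟨(hfin b Y).subset (hsubI b Y), ?_⟩⟩
    have h1 := (Set.ncard_le_ncard (hsubI b Y) (hfin b Y)).trans (hcard b Y)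
    have h2 : ((Bad S ε b Y).ncard : ℝ) ≤ Y := by exact_mod_cast h1
    have h3 : (0 : ℝ) ≤ Y := Nat.cast_nonneg Y
    nlinarith

end Pool.Agent.Results.MP_7aad9f_nt.SUnitMultiplesShort
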