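import Pool.Agent.Q290.Abc.Main

/-!
# The abc conjecture is equivalent to its restriction to arbitrarily sparse sets of triples

`step` replaces a coprime triple `(a, b, c)`, `a + b = c`, by `(x ^ 2, 108 y ^ 4, z ^ 3)`, where
`x = |X¹² - 33 X⁸ Y⁴ - 33 X⁴ Y⁸ + Y¹²|`, `y = X Y (X - Y) (X + Y) (X² + Y²)`,
`z = X⁸ + 14 X⁴ Y⁴ + Y⁸`, `X = c`, and `Y = b` if `b` is even, `Y = a` if `b` is odd. These are the
octahedral forms: `x² + 108 y⁴ = z³`, and `a b c` divides `y`. `Fam k` is the set of the `k`-th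
iterates of all coprime triples.

The map has degree `24`, it is ramified only above `0, 1, ∞`, and `0, 1, ∞` are vertices of the
octahedron. So `c / R(abc)` is not diminished by more than the factor `24` in each step, while the
number of triples up to `N` drops to the power `1/24`.
-/

set_option autoImplicit false

namespace Pool.Agent.Results.MP_7aad9f_nt.SparsePowerfulTriples

open Pool.Agent.Q290.Abc

/-- (1) For every `k` and every set `T` of triples which contains `Fam k` the abc conjecture for the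
triples in `T` is equivalent to the abc conjecture. (2) For `k ≥ 1` the members of `Fam k` are
coprime triples which consist of a square, of `108` times a fourth power and of a cube. (3) At most
`N ^ (2 / 24 ^ k)` of them have `c ≤ N`. (4) For `0 ≤ κ < 6.84 / 24 ^ (k / 2)` arbitrarily large
members of `Fam k` satisfy `c > R(abc) exp (κ √(log c) / log log c)`. -/
theorem result :
    (∀ (k : ℕ) (T : Set (ℕ × ℕ × ℕ)), Fam k ⊆ T → (ABC T ↔ ABC Set.univ)) ∧
    (∀ k : ℕ, ∀ t ∈ Fam (k + 1), IsTriple t ∧ ∃ x y z : ℕ, t = (x ^ 2, 108 * y ^ 4, z ^ 3)) ∧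
    (∀ k N : ℕ, (Fam k ∩ {t | t.2.2 ≤ N}).Finite ∧
      ((Fam k ∩ {t | t.2.2 ≤ N}).ncard : ℝ) ≤ (N : ℝ) ^ ((2 : ℝ) / 24 ^ k)) ∧
    (∀ (k : ℕ) (κ : ℝ), 0 ≤ κ → κ < 6.84 / √24 ^ k → ∀ X : ℝ, ∃ t ∈ Fam k, IsTriple t ∧
      X < t.2.2 ∧ (R (t.1 * t.2.1 * t.2.2) : ℝ) *
        Real.exp (κ * √(Real.log t.2.2) / Real.log (Real.log t.2.2)) < t.2.2) :=
  ⟨abc_fam, fam_shape, fam_count, fun k κ h0 h1 => rec_fam k κ h0 h1⟩

end Pool.Agent.Results.MP_7aad9f_nt.SparsePowerfulTriples
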